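import Pool.Agent.H23.BG.TargetsW

/-!
# Board brg_modules, module W_AN: from a bound for all extensions to the bound of Weil
-/

set_option autoImplicit false

open Polynomial Finset

namespace Pool.Agent.H54.BG

open Pool.Agent.H23.BG

private theorem root_le (w₁ w₂ : ℂ) (q C : ℝ) (hq : 1 ≤ q)
    (h : ∀ k : ℕ, 1 ≤ k → ‖w₁ ^ k + w₂ ^ k‖ ≤ C * Real.sqrt q ^ k) : ‖w₁‖ ≤ Real.sqrt q := by
  set s : ℝ := Real.sqrt q with hs
  have hs1 : 1 ≤ s := by rw [hs]; exact Real.one_le_sqrt.mpr hq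
  have hs0 : 0 < s := by linarith
  have hC : 0 ≤ C := by
    have h1 := (norm_nonneg _).trans (h 1 le_rfl)
    rw [pow_one] at h1
    by_contra hneg
    push Not at hneg
    nlinarith
  by_contra hcon
  push Not at hcon
  set x : ℝ := ‖w₁‖ / s with hx
  have hx1 : 1 < x := by rw [hx, lt_div_iff₀ hs0, one_mul]; exact hcon
  obtain ⟨n, hn⟩ := pow_unbounded_of_one_lt (C + (C ^ 2 + C) / 2 + 1) hx1
  have hn0 : 1 ≤ n := by
    by_contra h0
    have : n = 0 := by omega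
    rw [this, pow_zero] at hn
    nlinarith [sq_nonneg C]
  have h1 := h n hn0
  have h2 := h (2 * n) (by omega)
  have h3 : ‖(w₁ * w₂) ^ n‖ ≤ (C ^ 2 + C) / 2 * (s ^ n) ^ 2 := by
    have h4 : 2 * (w₁ * w₂) ^ n = (w₁ ^ n + w₂ ^ n) ^ 2 - (w₁ ^ (2 * n) + w₂ ^ (2 * n)) := by
      rw [mul_pow, mul_comm 2 n, pow_mul, pow_mul]
      ring
    have h5 : 2 * ‖(w₁ * w₂) ^ n‖ ≤ ‖w₁ ^ n + w₂ ^ n‖ ^ 2 + ‖w₁ ^ (2 * n) + w₂ ^ (2 * n)‖ := by
      have h6 := norm_sub_le ((w₁ ^ n + w₂ ^ n) ^ 2) (w₁ ^ (2 * n) + w₂ ^ (2 * n))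
      rw [← h4, norm_mul, norm_pow (w₁ ^ n + w₂ ^ n), Complex.norm_ofNat] at h6
      exact h6
    have h7 : ‖w₁ ^ n + w₂ ^ n‖ ^ 2 ≤ (C * s ^ n) ^ 2 := pow_le_pow_left₀ (norm_nonneg _) h1 2
    have h8 : s ^ (2 * n) = (s ^ n) ^ 2 := by rw [mul_comm, pow_mul]
    rw [h8] at h2
    nlinarith
  have h9 : ‖w₁ ^ n‖ ^ 2 ≤ C * s ^ n * ‖w₁ ^ n‖ + (C ^ 2 + C) / 2 * (s ^ n) ^ 2 := by
    have h10 : (w₁ ^ n) ^ 2 = (w₁ ^ n + w₂ ^ n) * w₁ ^ n - (w₁ * w₂) ^ n := by
      rw [mul_pow]; ring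
    rw [← norm_pow, h10]
    refine (norm_sub_le _ _).trans (add_le_add ?_ h3)
    rw [norm_mul]
    exact mul_le_mul_of_nonneg_right h1 (norm_nonneg _)
  have hw : ‖w₁ ^ n‖ = x ^ n * s ^ n := by
    rw [norm_pow, ← mul_pow, hx, div_mul_cancel₀ _ hs0.ne']
  have hsn : 0 < s ^ n := pow_pos hs0 n
  rw [hw] at h9
  have h11 : (x ^ n) ^ 2 ≤ C * x ^ n + (C ^ 2 + C) / 2 := by
    have h12 : (x ^ n) ^ 2 * (s ^ n) ^ 2 ≤ (C * x ^ n + (C ^ 2 + C) / 2) * (s ^ n) ^ 2 := by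
      nlinarith
    exact le_of_mul_le_mul_right h12 (by positivity)
  have h13 : 1 ≤ x ^ n := one_le_pow₀ hx1.le
  have h14 : 0 ≤ (C ^ 2 + C) / 2 := by positivity
  nlinarith

theorem pf_W_AN : W_AN := by
  intro a S q C hq h0 h3 hrec hS
  obtain ⟨r, hr⟩ := IsAlgClosed.exists_pow_nat_eq (a 1 ^ 2 - 4 * a 2) (n := 2) (by norm_num)
  set w₁ : ℂ := (-a 1 + r) / 2 with hw₁
  set w₂ : ℂ := (-a 1 - r) / 2 with hw₂
  have hsum : a 1 = -(w₁ + w₂) := by rw [hw₁, hw₂]; ring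
  have hprod : a 2 = w₁ * w₂ := by
    have : w₁ * w₂ = (a 1 ^ 2 - r ^ 2) / 4 := by rw [hw₁, hw₂]; ring
    rw [this, hr]; ring
  have hS1 : S 1 = -(w₁ + w₂) := by
    have := hrec 1 le_rfl
    simp [h0] at this
    rw [← this, hsum]
  have hS2 : S 2 = -(w₁ ^ 2 + w₂ ^ 2) := by
    have := hrec 2 (by norm_num)
    rw [Finset.sum_Icc_succ_top (by norm_num), Finset.Icc_self, Finset.sum_singleton] at this
    simp only [Nat.reduceAdd, Nat.reduceSub, h0, hS1, hsum, hprod] at this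
    push_cast at this
    linear_combination -this
  have hSk : ∀ k : ℕ, 1 ≤ k → S k = -(w₁ ^ k + w₂ ^ k) := by
    intro k
    induction k using Nat.strong_induction_on with
    | _ k ih =>
      intro hk
      match k, hk, ih with
      | 1, _, _ => simpa using hS1
      | 2, _, _ => exact hS2
      | m + 3, _, ih =>
        have h4 := hrec (m + 3) (by omega)
        rw [h3 _ (by omega), mul_zero, Finset.sum_Icc_succ_top (by omega),
          Finset.sum_Icc_succ_top (by omega), Finset.sum_Icc_succ_top (by omega),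
          Finset.sum_eq_zero] at h4
        · have e1 : m + 3 - (m + 1) = 2 := by omega
          have e2 : m + 3 - (m + 1 + 1) = 1 := by omega
          have e3 : m + 3 - (m + 2 + 1) = 0 := by omega
          rw [e1, e2, e3, h0, hsum, hprod, ih (m + 1) (by omega) (by omega),
            ih (m + 1 + 1) (by omega) (by omega)] at h4
          have e4 : S (m + 3) = S (m + 2 + 1) := rfl
          rw [e4]
          linear_combination -h4
        · intro k hk
          rw [Finset.mem_Icc] at hk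
          rw [h3 _ (by omega), mul_zero]
  have hpow : ∀ k : ℕ, q ^ ((k : ℝ) / 2) = Real.sqrt q ^ k := by
    intro k
    rw [Real.sqrt_eq_rpow, ← Real.rpow_natCast, ← Real.rpow_mul (by linarith)]
    congr 1
    ring
  have hb : ∀ k : ℕ, 1 ≤ k → ‖w₁ ^ k + w₂ ^ k‖ ≤ C * Real.sqrt q ^ k := by
    intro k hk
    have := hS k hk
    rw [hSk k hk, norm_neg, hpow] at this
    exact this
  have h1 := root_le w₁ w₂ q C hq hb
  have h2 := root_le w₂ w₁ q C hq fun k hk => by rw [add_comm]; exact hb k hk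
  rw [hS1, norm_neg]
  linarith [norm_add_le w₁ w₂]

end Pool.Agent.H54.BG
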