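import Pool.Agent.H23.BG.TargetsW

/-!
# Board brg_modules, module W_W3: three linear factors
-/

set_option autoImplicit false

open Polynomial Finset

namespace Pool.Agent.H54.BG

open Pool.Agent.H23.BG

private theorem conj_eq_pow {F : Type} [Field F] [Fintype F] (χ : MulChar F ℂ) (d : ℕ)
    (hd : orderOf χ = d) (hd2 : 2 ≤ d) (u : F) : (starRingEnd ℂ) (χ u) = χ (u ^ (d - 1)) := by
  have h1 : (starRingEnd ℂ) (χ u) = χ⁻¹ u := MulChar.star_apply' χ u
  have h2 : χ⁻¹ = χ ^ (d - 1) := by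
    rw [inv_eq_iff_mul_eq_one, ← pow_succ', Nat.sub_add_cancel (by omega), ← hd]
    exact pow_orderOf_eq_one χ
  rw [h1, h2, MulChar.pow_apply' χ (by omega), map_pow]

theorem pf_W_W3 (hSC : W_SC) (hNE : W_NE) (hEP : W_EP) (hEY : W_EY) (hLX : W_LX) (hVA : W_VA)
    (hAN : W_AN) : W_W3 := by
  classical
  intro F _ _ χ b₁ b₂ b₃ hχ h₁ h₂ h₃
  set d : ℕ := orderOf χ with hd
  have hd0 : 0 < d := MulChar.orderOf_pos χ
  have hd1 : d ≠ 1 := fun h => hχ (orderOf_eq_one_iff.mp h)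
  have hd2 : 2 ≤ d := by omega
  have hcop : Nat.Coprime (2 * d - 1) d := by
    have h4 : 2 * d - 1 = (d - 1) + d := by omega
    rw [h4, Nat.coprime_add_self_left]
    have h5 : d = (d - 1) + 1 := by omega
    conv_rhs => rw [h5]
    exact Nat.coprime_self_add_right.mpr (Nat.coprime_one_right _)
  obtain ⟨K₀, hC0, hC⟩ := hSC d (2 * d - 1) hd2 (by omega) hcop
  obtain ⟨⟨hX1, hXm⟩, hXE⟩ := hLX F χ b₁ b₂ b₃ h₁ h₂ h₃
  obtain ⟨hV0, hV3⟩ := hVA F χ b₁ b₂ b₃ hχ h₁ h₂ h₃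
  have hbound : ∀ k : ℕ, 1 ≤ k → ‖sm F (lx χ b₁ b₂ b₃) k‖ ≤
      K₀ * (Fintype.card F : ℝ) ^ ((k : ℝ) / 2) := by
    intro k hk
    obtain ⟨E, _, _, _, hfr, hch⟩ := hNE F k hk
    obtain ⟨χ', hord, hN⟩ := hch χ
    have h6 : sm F (lx χ b₁ b₂ b₃) k = ∑ y : E, χ' (((C (algebraMap F E b₁) * X + C 1) *
        ((C (algebraMap F E b₂) * X + C 1) ^ (d - 1) *
          (C (algebraMap F E b₃) * X + C 1) ^ (d - 1)) : E[X]).eval y) := by
      rw [← hfr, hEY F E]
      refine Finset.sum_congr rfl fun y _ => ?_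
      rw [hXE E y, ← hN, ← hN, ← hN, conj_eq_pow χ' d (by rw [hord]) hd2,
        conj_eq_pow χ' d (by rw [hord]) hd2, ← map_mul, ← map_mul]
      congr 1
      simp only [eval_mul, eval_add, eval_pow, eval_C, eval_X]
      ring
    have hne : ∀ b : F, b ≠ 0 → algebraMap F E b ≠ 0 := fun b hb =>
      (map_ne_zero_iff _ (algebraMap F E).injective).mpr hb
    have hdeg : ((C (algebraMap F E b₁) * X + C 1) *
        ((C (algebraMap F E b₂) * X + C 1) ^ (d - 1) *
          (C (algebraMap F E b₃) * X + C 1) ^ (d - 1)) : E[X]).natDegree = 2 * d - 1 := by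
      have hl : ∀ b : F, b ≠ 0 → (C (algebraMap F E b) * X + C 1 : E[X]).natDegree = 1 :=
        fun b hb => natDegree_linear (hne b hb)
      have hl0 : ∀ b : F, b ≠ 0 → (C (algebraMap F E b) * X + C 1 : E[X]) ≠ 0 := by
        intro b hb h0
        have := hl b hb
        rw [h0, natDegree_zero] at this
        omega
      rw [natDegree_mul (hl0 _ h₁) (mul_ne_zero (pow_ne_zero _ (hl0 _ h₂))
        (pow_ne_zero _ (hl0 _ h₃))), natDegree_mul (pow_ne_zero _ (hl0 _ h₂))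
        (pow_ne_zero _ (hl0 _ h₃)), natDegree_pow, natDegree_pow, hl _ h₁, hl _ h₂, hl _ h₃]
      omega
    have h7 := hC E χ' (by rw [hord]) _ hdeg
    rw [← h6] at h7
    refine h7.trans (le_of_eq ?_)
    rw [Module.card_eq_pow_finrank (K := F) (V := E), hfr, Real.sqrt_eq_rpow]
    push_cast
    rw [← Real.rpow_natCast, ← Real.rpow_mul (by positivity)]
    congr 2
    ring
  have hq : (1 : ℝ) ≤ Fintype.card F := by exact_mod_cast Fintype.card_pos
  have hfin := hAN (am F (lx χ b₁ b₂ b₃)) (sm F (lx χ b₁ b₂ b₃)) (Fintype.card F) K₀ hq hV0 hV3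
    (fun n hn => hEP F _ hX1 hXm n hn) hbound
  have hS1 : sm F (lx χ b₁ b₂ b₃) 1 = ∑ t : F, χ (1 + b₁ * t) *
      (starRingEnd ℂ) (χ (1 + b₂ * t)) * (starRingEnd ℂ) (χ (1 + b₃ * t)) := by
    have h8 := hEY F F (lx χ b₁ b₂ b₃)
    rw [Module.finrank_self] at h8
    rw [h8]
    refine Finset.sum_congr rfl fun y _ => ?_
    have h9 := hXE F y
    rw [Module.finrank_self] at h9
    rw [h9]
    simp only [Algebra.norm_self, MonoidHom.id_apply, Algebra.algebraMap_self, RingHom.id_apply]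
  rw [← hS1]
  exact hfin

end Pool.Agent.H54.BG
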