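import Pool.Agent.H23.BG.TargetsW

/-!
# Board brg_modules, module W_W4: the bound of Weil for the complete sum
-/

set_option autoImplicit false

open Polynomial Finset

namespace Pool.Agent.H54.BG

open Pool.Agent.H23.BG

private theorem conj_mul_self' {F : Type} [Field F] [Fintype F] (χ : MulChar F ℂ) (u : F)
    (hu : u ≠ 0) : χ u * (starRingEnd ℂ) (χ u) = 1 := by
  have h1 : (starRingEnd ℂ) (χ u) = χ⁻¹ u := MulChar.star_apply' χ u
  rw [h1, ← MulChar.mul_apply, mul_inv_cancel, MulChar.one_apply (isUnit_iff_ne_zero.mpr hu)]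

private theorem iso0 (hW : W_W3) (F : Type) [Field F] [Fintype F] (χ : MulChar F ℂ) (hχ : χ ≠ 1)
    (c0 c1 c2 c3 : F) (h1 : c1 ≠ c0) (h2 : c2 ≠ c0) (h3 : c3 ≠ c0) :
    ‖∑ y : F, χ (y + c0) * χ (y + c1) * (starRingEnd ℂ) (χ (y + c2)) *
      (starRingEnd ℂ) (χ (y + c3))‖ ≤ 3 * Real.sqrt (Fintype.card F) := by
  classical
  set g : F → ℂ := fun t => χ (1 + (c1 - c0) * t) * (starRingEnd ℂ) (χ (1 + (c2 - c0) * t)) *
      (starRingEnd ℂ) (χ (1 + (c3 - c0) * t)) with hg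
  have hkey : ∑ y : F, χ (y + c0) * χ (y + c1) * (starRingEnd ℂ) (χ (y + c2)) *
      (starRingEnd ℂ) (χ (y + c3)) = (∑ t : F, g t) - 1 := by
    rw [← Fintype.sum_equiv (Equiv.subRight c0) (fun y => χ (y - c0 + c0) * χ (y - c0 + c1) *
      (starRingEnd ℂ) (χ (y - c0 + c2)) * (starRingEnd ℂ) (χ (y - c0 + c3))) _ (fun y => rfl),
      ← Equiv.sum_comp (Equiv.inv F)]
    rw [← Finset.add_sum_erase _ _ (Finset.mem_univ (0 : F)),
      ← Finset.add_sum_erase _ g (Finset.mem_univ (0 : F))]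
    have e1 : g 0 = 1 := by simp [hg]
    have e2 : χ ((Equiv.inv F) 0 - c0 + c0) = 0 := by
      have e0 : (Equiv.inv F) 0 - c0 + c0 = 0 := by simp
      rw [e0]
      exact χ.map_nonunit not_isUnit_zero
    rw [e1, e2, add_sub_cancel_left, zero_mul, zero_mul, zero_mul, zero_add]
    refine Finset.sum_congr rfl fun t ht => ?_
    have ht0 : t ≠ 0 := Finset.ne_of_mem_erase ht
    have e3 : (Equiv.inv F) t = t⁻¹ := rfl
    have e4 : ∀ c : F, χ ((Equiv.inv F) t - c0 + c) = χ t⁻¹ * χ (1 + (c - c0) * t) := by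
      intro c
      rw [← map_mul, e3]
      congr 1
      field_simp
      ring
    rw [e4 c1, e4 c2, e4 c3, sub_add_cancel, e3, map_mul, map_mul]
    have e5 := conj_mul_self' χ t⁻¹ (inv_ne_zero ht0)
    calc χ t⁻¹ * (χ t⁻¹ * χ (1 + (c1 - c0) * t)) *
          ((starRingEnd ℂ) (χ t⁻¹) * (starRingEnd ℂ) (χ (1 + (c2 - c0) * t))) *
          ((starRingEnd ℂ) (χ t⁻¹) * (starRingEnd ℂ) (χ (1 + (c3 - c0) * t)))
        = (χ t⁻¹ * (starRingEnd ℂ) (χ t⁻¹)) * (χ t⁻¹ * (starRingEnd ℂ) (χ t⁻¹)) * g t := by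
          rw [hg]; ring
      _ = g t := by rw [e5, one_mul, one_mul]
  rw [hkey]
  have h4 := hW F χ (c1 - c0) (c2 - c0) (c3 - c0) hχ (sub_ne_zero.mpr h1) (sub_ne_zero.mpr h2)
    (sub_ne_zero.mpr h3)
  have h5 : 1 ≤ Real.sqrt (Fintype.card F) := by
    rw [Real.one_le_sqrt]
    exact_mod_cast Fintype.card_pos
  have h6 := norm_sub_le (∑ t : F, g t) 1
  rw [norm_one] at h6
  linarith

theorem pf_W_W4 (hW : W_W3) : W_W4 := by
  intro F _ _ χ hχ a ha
  obtain ⟨i, hi⟩ := ha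
  have hconj : ‖c4 (fun x => χ x) a‖ = ‖∑ y : F, χ (y + a 2) * χ (y + a 3) *
      (starRingEnd ℂ) (χ (y + a 0)) * (starRingEnd ℂ) (χ (y + a 1))‖ := by
    rw [← RCLike.norm_conj (c4 (fun x => χ x) a), c4, map_sum]
    congr 1
    refine Finset.sum_congr rfl fun y _ => ?_
    simp only [map_mul, Complex.conj_conj]
    ring
  fin_cases i
  · exact iso0 hW F χ hχ (a 0) (a 1) (a 2) (a 3) (hi 1 (by decide)) (hi 2 (by decide))
      (hi 3 (by decide))
  · have := iso0 hW F χ hχ (a 1) (a 0) (a 2) (a 3) (hi 0 (by decide)) (hi 2 (by decide))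
      (hi 3 (by decide))
    rw [c4]
    refine le_trans (le_of_eq ?_) this
    congr 1
    refine Finset.sum_congr rfl fun y _ => ?_
    ring
  · rw [hconj]
    exact iso0 hW F χ hχ (a 2) (a 3) (a 0) (a 1) (hi 3 (by decide)) (hi 0 (by decide))
      (hi 1 (by decide))
  · rw [hconj]
    have := iso0 hW F χ hχ (a 3) (a 2) (a 0) (a 1) (hi 2 (by decide)) (hi 0 (by decide))
      (hi 1 (by decide))
    refine le_trans (le_of_eq ?_) this
    congr 1
    refine Finset.sum_congr rfl fun y _ => ?_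
    ring

end Pool.Agent.H54.BG
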